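import Mathlib
import Pool.Agent.H90.P.Ns
import Pool.Agent.H90.P.W619.TW.Der

/-! Project PG, part PULL: pull-back of sections. -/

set_option autoImplicit false
set_option linter.overlappingInstances false
set_option linter.unusedSectionVars false

universe u v

open FF IntermediateField Pool.Agent.W619.PQ Pool.Agent.W619.PL Pool.Agent.W619.TW
  Pool.Agent.W603.LV Pool.Agent.W619.Y

namespace Pool.Agent.W73.PG.PULL

section

variable {k K L : Type*} [Field k] [CharZero k] [Field K] [Field L] [Algebra k K] [Algebra k L]
  [Algebra K L] [IsScalarTower k K L]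

theorem sum_app {ι : Type*} (s : Finset ι) (g : ι → Derivation k K L) (f : K) :
    (∑ c ∈ s, g c) f = ∑ c ∈ s, g c f := by
  classical
  induction s using Finset.induction_on with
  | empty => rfl
  | insert a s ha ih =>
    rw [Finset.sum_insert ha, Finset.sum_insert ha, ← ih]
    rfl

/-- expansion of a derivation -/
theorem expand {n : ℕ} (y : Fin n → K) (hy : IsTranscendenceBasis k y)
    (E : Fin n → Derivation k K K) (hE : ∀ i j, E i (y j) = if i = j then 1 else 0)
    (D : Derivation k K K) : ∑ b, D (y b) • E b = D := by
  have h1 := der_zero ((∑ b, D (y b) • E b) - D) y hy (fun i => by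
    change (∑ b, D (y b) • E b) (y i) - D (y i) = 0
    rw [sum_app]
    change ∑ b, D (y b) * E b (y i) - D (y i) = 0
    simp only [hE, mul_ite, mul_one, mul_zero, Finset.sum_ite_eq', Finset.mem_univ, if_true,
      sub_self])
  ext f
  exact sub_eq_zero.1 (h1 f)

end

end Pool.Agent.W73.PG.PULL
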